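import Pool.Agent.RX.RCRS.Greedy_2
import Pool.Agent.RX.RCRS.Meas

/-! Ring laws with densities and the two basic inequalities (F1), (F2) for the greedy process
(MP_73ccd0_lc). -/

set_option linter.unusedSectionVars false

namespace Pool.Agent.RX.RCRS

open MeasureTheory

/-- the law `ν` of a ring time: on `[0,1)` it has density `φ`, nothing below `0`, and the
survival probability is `exp (- ∫ h)` -/
structure RingLaw (ν : Measure ℝ) (φ h : ℝ → ℝ) : Prop where
  dens : ∀ B, MeasurableSet B → B ⊆ Set.Ico 0 1 → ν.real B = ∫ t in B, φ t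
  neg : ν (Set.Iio 0) = 0
  surv : ∀ τ ∈ Set.Icc (0:ℝ) 1, ∫ t in Set.Ico 0 τ, φ t = 1 - Real.exp (-∫ t in Set.Ico 0 τ, h t)
  h_meas : Measurable h
  h_nonneg : ∀ t, 0 ≤ h t
  φ_nonneg : ∀ t, 0 ≤ φ t
  h_int : IntegrableOn h (Set.Ico 0 1)
  φ_int : IntegrableOn φ (Set.Ico 0 1)

section Fub

variable {Ω : Type*} [MeasurableSpace Ω] (P : Measure Ω) [IsProbabilityMeasure P]

/-- Fubini for a time integral of a random set -/
theorem fubini_ind (h : ℝ → ℝ) (s : ℝ) (hh : IntegrableOn h (Set.Ico 0 s))
    (Q : Ω × ℝ → Prop) (hQ : Measurable Q) :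
    ∫ ρ, (∫ t in Set.Ico 0 s ∩ {t | Q (ρ, t)}, h t) ∂P =
      ∫ t in Set.Ico 0 s, h t * P.real {ρ | Q (ρ, t)} := by
  have hQs : MeasurableSet {p : Ω × ℝ | Q p} := measurableSet_setOfPred.2 hQ
  have hint : Integrable (Function.uncurry fun (ρ : Ω) (t : ℝ) =>
      Set.indicator {p : Ω × ℝ | Q p} (fun p => h p.2) (ρ, t))
      (P.prod (volume.restrict (Set.Ico 0 s))) := by
    have h1 : Integrable (fun p : Ω × ℝ => h p.2) (P.prod (volume.restrict (Set.Ico 0 s))) := by
      have := (Integrable.mul_prod (μ := P) (ν := volume.restrict (Set.Ico 0 s))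
        (f := fun _ : Ω => (1:ℝ)) (g := h) (integrable_const _) hh)
      simpa using this
    exact h1.indicator hQs
  have hL : ∀ ρ, (∫ t in Set.Ico 0 s ∩ {t | Q (ρ, t)}, h t) =
      ∫ t in Set.Ico 0 s, Set.indicator {p : Ω × ℝ | Q p} (fun p => h p.2) (ρ, t) := by
    intro ρ
    have hm : MeasurableSet {t | Q (ρ, t)} :=
      measurableSet_setOfPred.2 (hQ.comp measurable_prodMk_left)
    rw [Set.inter_comm, ← Measure.restrict_restrict hm, ← integral_indicator hm]
    rfl
  simp_rw [hL]
  rw [integral_integral_swap hint]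
  refine integral_congr_ae (Filter.Eventually.of_forall fun t => ?_)
  have hm : MeasurableSet {ρ | Q (ρ, t)} :=
    measurableSet_setOfPred.2 (hQ.comp measurable_prodMk_right)
  have : (fun ρ => Set.indicator {p : Ω × ℝ | Q p} (fun p => h p.2) (ρ, t)) =
      Set.indicator {ρ | Q (ρ, t)} (fun _ => h t) := by
    funext ρ; rfl
  simp only [this]
  rw [integral_indicator hm, setIntegral_const, smul_eq_mul, mul_comm]

end Fub

section F

variable {ι V : Type*} [Fintype ι] [DecidableEq ι] [Fintype V] [DecidableEq V] (en : ι → Finset V)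
variable (ν : ι → Measure ℝ) [∀ i, IsProbabilityMeasure (ν i)] (φ h : ι → ℝ → ℝ)

/-- probability that all vertices of `W` are free at time `s` in the process on `A` -/
noncomputable def pf (A : Finset ι) (W : Finset V) (s : ℝ) : ℝ :=
  (Measure.pi ν).real {ρ | ∀ w ∈ W, free en A ρ w s}

theorem measurable_freeSet (A : Finset ι) (W : Finset V) :
    Measurable fun p : (ι → ℝ) × ℝ => ∀ w ∈ W, free en A p.1 w p.2 :=
  Measurable.forall fun w => measurable_const.imp (measurable_free en A w)

theorem measurableSet_freeSet (A : Finset ι) (W : Finset V) (s : ℝ) :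
    MeasurableSet {ρ : ι → ℝ | ∀ w ∈ W, free en A ρ w s} :=
  measurableSet_setOfPred.2 ((measurable_freeSet en A W).comp
    (measurable_id.prodMk measurable_const))

theorem mix_not_mem {B : Finset ι} {ρ τ : ι → ℝ} {i : ι} (h : i ∉ B) : mix B (ρ, τ) i = ρ i := by
  simp [mix, h]

theorem mix_mem {B : Finset ι} {ρ τ : ι → ℝ} {i : ι} (h : i ∈ B) : mix B (ρ, τ) i = τ i := by
  simp [mix, h]

/-- (F1a): probability that `f` is selected before time `s` -/
theorem prob_sel (hL : ∀ i, RingLaw (ν i) (φ i) (h i)) (A : Finset ι) (f : ι) (hf : f ∈ A)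
    {s : ℝ} (hs1 : s ≤ 1) :
    (Measure.pi ν).real {ρ | sel en A ρ f ∧ ρ f < s} =
      ∫ t in Set.Ico 0 s, φ f t * pf en ν (A.erase f) (en f) t := by
  have hEm : MeasurableSet {ρ : ι → ℝ | sel en A ρ f ∧ ρ f < s} := by
    refine measurableSet_setOfPred.2 ((measurable_sel en A f).and ?_)
    exact measurableSet_setOfPred.1 (measurableSet_lt (measurable_pi_apply f) measurable_const)
  rw [real_eq_integral_mix ν {f} _ hEm]
  have hQ := measurable_freeSet en (A.erase f) (en f)
  have hin : ∀ ρ : ι → ℝ, (Measure.pi ν).real {τ | mix {f} (ρ, τ) ∈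
      {ρ : ι → ℝ | sel en A ρ f ∧ ρ f < s}} =
      ∫ t in Set.Ico 0 s ∩ {t | ∀ v ∈ en f, free en (A.erase f) ρ v t}, φ f t := by
    intro ρ
    set K : Set ℝ := {t | t < s ∧ ∀ v ∈ en f, free en (A.erase f) ρ v t} with hK
    have hKm : MeasurableSet K := by
      refine measurableSet_setOfPred.2 (Measurable.and ?_ (hQ.comp measurable_prodMk_left))
      exact measurableSet_setOfPred.1 (measurableSet_lt measurable_id measurable_const)
    have h1 : {τ | mix {f} (ρ, τ) ∈ {ρ : ι → ℝ | sel en A ρ f ∧ ρ f < s}} =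
        {τ | ∀ g ∈ ({f} : Finset ι), τ g ∈ (fun _ => K) g} := by
      ext τ
      simp only [Set.mem_ofPred_eq, Finset.mem_singleton, forall_eq]
      rw [sel_iff_free en hf, mix_mem (Finset.mem_singleton_self f)]
      constructor
      · rintro ⟨h1, h2⟩
        refine ⟨h2, fun v hv => ?_⟩
        rw [free_congr_on en (ρ' := mix {f} (ρ, τ))]
        · exact h1 v hv
        · intro g hg
          exact mix_not_mem (by simpa using (Finset.mem_erase.1 hg).1)
      · rintro ⟨h1, h2⟩
        refine ⟨fun v hv => ?_, h1⟩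
        rw [← free_congr_on en (ρ := ρ)]
        · exact h2 v hv
        · intro g hg
          exact mix_not_mem (by simpa using (Finset.mem_erase.1 hg).1)
    rw [h1, pi_real_box]
    simp only [Finset.prod_singleton]
    have h2 : (ν f).real K = (ν f).real (Set.Ico 0 s ∩
        {t | ∀ v ∈ en f, free en (A.erase f) ρ v t}) := by
      refine le_antisymm ?_ ?_
      · calc (ν f).real K ≤ (ν f).real ((Set.Ico 0 s ∩
            {t | ∀ v ∈ en f, free en (A.erase f) ρ v t}) ∪ Set.Iio 0) := by
              refine measureReal_mono ?_ (measure_ne_top _ _)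
              rintro t ⟨ht1, ht2⟩
              by_cases h0 : 0 ≤ t
              · exact Or.inl ⟨⟨h0, ht1⟩, ht2⟩
              · exact Or.inr (not_le.1 h0)
          _ ≤ _ := by
              refine (measureReal_union_le _ _).trans ?_
              have : (ν f).real (Set.Iio 0) = 0 := by
                unfold Measure.real; rw [(hL f).neg]; rfl
              rw [this, add_zero]
      · refine measureReal_mono ?_ (measure_ne_top _ _)
        rintro t ⟨ht1, ht2⟩
        exact ⟨ht1.2, ht2⟩
    rw [h2, (hL f).dens]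
    · exact measurableSet_Ico.inter (measurableSet_setOfPred.2 (hQ.comp measurable_prodMk_left))
    · intro t ht; exact ⟨ht.1.1, ht.1.2.trans_le hs1⟩
  simp_rw [hin]
  rw [fubini_ind (Measure.pi ν) (φ f) s
    ((hL f).φ_int.mono_set (Set.Ico_subset_Ico_right hs1))
    (fun p : (ι → ℝ) × ℝ => ∀ v ∈ en f, free en (A.erase f) p.1 v p.2) hQ]
  rfl

/-- the pairwise tie event is null before time one -/
theorem tie_null (hL : ∀ i, RingLaw (ν i) (φ i) (h i)) (f g : ι) (hfg : f ≠ g) :
    (Measure.pi ν).real {ρ | ρ f = ρ g ∧ ρ f < 1} = 0 := by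
  have hEm : MeasurableSet {ρ : ι → ℝ | ρ f = ρ g ∧ ρ f < 1} := by
    refine measurableSet_setOfPred.2 (Measurable.and ?_ ?_)
    · exact measurableSet_setOfPred.1
        (measurableSet_eq_fun (measurable_pi_apply f) (measurable_pi_apply g))
    · exact measurableSet_setOfPred.1 (measurableSet_lt (measurable_pi_apply f) measurable_const)
  rw [real_eq_integral_mix ν {f} _ hEm]
  have : ∀ ρ : ι → ℝ, (Measure.pi ν).real {τ | mix {f} (ρ, τ) ∈
      {ρ : ι → ℝ | ρ f = ρ g ∧ ρ f < 1}} = 0 := by
    intro ρ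
    set K : Set ℝ := {t | t = ρ g ∧ t < 1} with hK
    have h1 : {τ | mix {f} (ρ, τ) ∈ {ρ : ι → ℝ | ρ f = ρ g ∧ ρ f < 1}} =
        {τ | ∀ k ∈ ({f} : Finset ι), τ k ∈ (fun _ => K) k} := by
      ext τ
      simp only [Set.mem_ofPred_eq, Finset.mem_singleton, forall_eq]
      rw [mix_mem (Finset.mem_singleton_self f), mix_not_mem (by simpa using hfg.symm)]
      rfl
    rw [h1, pi_real_box]
    simp only [Finset.prod_singleton]
    have hle : (ν f).real K ≤ (ν f).real ((({ρ g} : Set ℝ) ∩ Set.Ico 0 1) ∪ Set.Iio 0) := by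
      refine measureReal_mono ?_ (measure_ne_top _ _)
      rintro t ⟨ht1, ht2⟩
      by_cases h0 : 0 ≤ t
      · exact Or.inl ⟨ht1, ⟨h0, ht2⟩⟩
      · exact Or.inr (not_le.1 h0)
    have h2 : (ν f).real ((({ρ g} : Set ℝ) ∩ Set.Ico 0 1) ∪ Set.Iio 0) ≤ 0 := by
      refine (measureReal_union_le _ _).trans ?_
      have h3 : (ν f).real (Set.Iio 0) = 0 := by
        unfold Measure.real; rw [(hL f).neg]; rfl
      have h4 : (ν f).real (({ρ g} : Set ℝ) ∩ Set.Ico 0 1) = 0 := by
        rw [(hL f).dens _ ((measurableSet_singleton _).inter measurableSet_Ico)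
          Set.inter_subset_right]
        have : volume (({ρ g} : Set ℝ) ∩ Set.Ico 0 1) = 0 :=
          measure_mono_null Set.inter_subset_left (by simp)
        exact setIntegral_measure_zero _ this
      rw [h3, h4, add_zero]
    exact le_antisymm (hle.trans h2) measureReal_nonneg
  simp_rw [this]
  simp

end F

end Pool.Agent.RX.RCRS
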