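import Pool.Agent.RX.RCRS.Greedy_1

/-! Deterministic greedy process on items with ring times (used for random order contention
resolution for matchings, MP_73ccd0_lc): selection rule, locality, deletion inequality. -/

set_option linter.unusedSectionVars false

namespace Pool.Agent.RX.RCRS

section Greedy

variable {ι V : Type*} [Fintype ι] [DecidableEq ι] [DecidableEq V] (en : ι → Finset V)

theorem free_anti {A : Finset ι} {ρ : ι → ℝ} {w : V} {s s' : ℝ} (hs : s' ≤ s)
    (h : free en A ρ w s) : free en A ρ w s' :=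
  fun f hf hw hsel => hs.trans (h f hf hw hsel)

theorem free_congr {A A' : Finset ι} {ρ ρ' : ι → ℝ} (s : ℝ)
    (h1 : ∀ g, (g ∈ A ∧ ρ g < s) ↔ (g ∈ A' ∧ ρ' g < s))
    (h2 : ∀ g ∈ A, ρ g < s → ρ' g = ρ g) (w : V) :
    free en A ρ w s ↔ free en A' ρ' w s := by
  constructor
  · intro h f hf hw hsel
    by_contra hlt
    push Not at hlt
    have hf2 := (h1 f).2 ⟨hf, hlt⟩
    have := h f hf2.1 hw ((sel_congr en s h1 h2 f hf2.2 hf2.1).2 hsel)
    linarith [hf2.2]
  · intro h f hf hw hsel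
    by_contra hlt
    push Not at hlt
    have hf2 := (h1 f).1 ⟨hf, hlt⟩
    have := h f hf2.1 hw ((sel_congr en s h1 h2 f hlt hf).1 hsel)
    linarith [hf2.2]

/-- `free` only depends on the ring times of the items of `A` -/
theorem free_congr_on {A : Finset ι} {ρ ρ' : ι → ℝ} (h : ∀ g ∈ A, ρ' g = ρ g) (w : V) (s : ℝ) :
    free en A ρ w s ↔ free en A ρ' w s := by
  refine free_congr en s (fun g => ?_) (fun g hg _ => h g hg) w
  constructor
  · rintro ⟨h1, h2⟩; exact ⟨h1, by rw [h g h1]; exact h2⟩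
  · rintro ⟨h1, h2⟩; exact ⟨h1, by rw [h g h1] at h2; exact h2⟩

/-- an item is selected iff at its ring time all its ends are free for the process without it -/
theorem sel_iff_free {A : Finset ι} {ρ : ι → ℝ} {f : ι} (hf : f ∈ A) :
    sel en A ρ f ↔ ∀ v ∈ en f, free en (A.erase f) ρ v (ρ f) := by
  have h1 : ∀ g, (g ∈ A ∧ ρ g < ρ f) ↔ (g ∈ A.erase f ∧ ρ g < ρ f) := by
    intro g
    constructor
    · rintro ⟨h1, h2⟩
      refine ⟨Finset.mem_erase.2 ⟨?_, h1⟩, h2⟩
      rintro rfl; exact lt_irrefl _ h2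
    · rintro ⟨h1, h2⟩; exact ⟨Finset.mem_of_mem_erase h1, h2⟩
  have h2 : ∀ g ∈ A, ρ g < ρ f → ρ g = ρ g := fun _ _ _ => rfl
  rw [sel_iff]
  constructor
  · rintro ⟨_, h⟩ v hv g hg hvg hsel
    by_contra hlt
    push Not at hlt
    have hgA := Finset.mem_of_mem_erase hg
    refine h g hgA ?_ hlt ((sel_congr en (ρ f) h1 h2 g hlt hgA).2 hsel)
    rw [Finset.not_disjoint_iff]; exact ⟨v, hvg, hv⟩
  · intro h
    refine ⟨hf, fun g hg hd hlt hsel => ?_⟩
    rw [Finset.not_disjoint_iff] at hd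
    obtain ⟨v, hvg, hvf⟩ := hd
    have hgf : g ≠ f := by rintro rfl; exact lt_irrefl _ hlt
    have := h v hvf g (Finset.mem_erase.2 ⟨hgf, hg⟩) hvg
      ((sel_congr en (ρ f) h1 h2 g hlt hg).1 hsel)
    linarith

end Greedy

end Pool.Agent.RX.RCRS
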